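import Mathlib
import Pool.Agent.H63.Check
import Pool.Agent.H72.NP.Hard3Sat
import Pool.Agent.H90.Closed.Comp
import Pool.Agent.H9.M3.Unary

set_option autoImplicit false

/-!
# Euclidean Max-3DM is strongly NP-hard in every fixed dimension `s ≥ 2`, and has no FPTAS

The decision version (is there a partition of the given points into triangles of total perimeter at
least `K`?) is NP-hard, and a polynomial-time algorithm computing an optimal partition would imply
`P = NP`. The decision version remains NP-hard for natural coordinates and a natural threshold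
written in unary, and an algorithm which for all points `P` and all `k` computes, in time polynomial
in the size of `P` and in `k`, a partition whose perimeter is at least `1 - 1/(k+1)` times the
maximum would imply `P = NP`.
-/

namespace Pool.Agent.Results.MP_b24d90_lc.EuclideanMax3DMHard

open Computability Pool.Agent.H72.NP Pool.Agent.H80.Poly Pool.Agent.H63.Max3DM
open Pool.Agent.H63.Check Pool.Agent.H63.RedPoly Pool.Agent.H63.RedSat
open Pool.Agent.H9.M3

/-- The class P: the decision problem `Q` on instances encoded by `e` is decided by a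
polynomial-time Turing machine. -/
def InP {α A : Type} (e : α → List A) (Q : α → Prop) : Prop :=
  ∃ D : α → Bool, PolyTimeFun e encodeBool D ∧ ∀ a, Q a ↔ D a = true

theorem result (s : ℕ) (hs : 2 ≤ s) :
    (NPHard (BEnc.enc : List (Fin s → ℚ) × ℚ → List Bool) (MaxPerimeter s) ∧
    ((∃ opt : List (Fin s → ℚ) → List ((Fin s → ℚ) × (Fin s → ℚ) × (Fin s → ℚ)),
        Solves s opt ∧ PolyTimeFun BEnc.enc BEnc.enc opt) →
      ∀ L : List Bool → Prop, InNP (id : List Bool → List Bool) L →
        InP (id : List Bool → List Bool) L)) ∧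
    NPHard (BEnc.enc : List (Fin s → UNat) × UNat → List Bool) (MaxPerimeterU s) ∧
    ((∃ apx : List (Fin s → ℚ) × UNat → List ((Fin s → ℚ) × (Fin s → ℚ) × (Fin s → ℚ)),
        Approximates s apx ∧ PolyTimeFun BEnc.enc BEnc.enc apx) →
      ∀ L : List Bool → Prop, InNP (id : List Bool → List Bool) L →
        InP (id : List Bool → List Bool) L) := by
  have hst : ∀ ψ : List Clause3, Dense ψ → (red s ψ).1.Nodup ∧ 3 ∣ (red s ψ).1.length := by
    intro ψ hψ
    rw [red_fst]
    constructor
    · rcases Nat.eq_zero_or_pos ψ.length with h0 | hm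
      · rw [h0]
        simp [Pool.Agent.H63.Opt.pts, Pool.Agent.H63.Elems.elems]
      · exact (Pool.Agent.H63.Opt.struct hs hm _ _ (var_lt ψ hψ)).1
    · unfold Pool.Agent.H63.Opt.pts
      rw [List.length_map, elems_length']
      exact Dvd.intro _ rfl
  refine ⟨⟨?_, ?_⟩, ?_, ?_⟩
  · exact npHard_of_sat3 (red s) (polyRed s) (fun ψ hψ => red_correct hs ψ hψ)
  · rintro ⟨opt, hopt, hpoly⟩ L hL
    obtain ⟨f, hf, hf1, hf2⟩ := exists_reduction_sat3 hL
    have h1 : PolyTime (fun x => (red s (f x)).1) := ((polyRed s).comp hf).fst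
    have h2 := Pool.Agent.H90.Closed.Comp.comp h1.tm2 hpoly
    have h3 := Pool.Agent.H90.Closed.Comp.comp h2 (polyCheck s).tm2
    refine ⟨fun x => check s (opt (red s (f x)).1), h3, fun x => ?_⟩
    rw [hf1 x]
    have hnd := hst (f x) (hf2 x)
    obtain ⟨k1, k2⟩ := hopt _ hnd.1 hnd.2
    exact check_correct hs (f x) (hf2 x) _ k1 k2
  · exact npHard_of_sat3 (redU s) (polyRedU s) (fun ψ hψ => redU_correct hs ψ hψ)
  · rintro ⟨apx, hapx, hpoly⟩ L hL
    obtain ⟨f, hf, hf1, hf2⟩ := exists_reduction_sat3 hL
    have h1 : PolyTime (fun x => ((red s (f x)).1, precU (f x))) :=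
      (((polyRed s).comp hf).fst).pair (polyPrecU.comp hf)
    have h2 := Pool.Agent.H90.Closed.Comp.comp h1.tm2 hpoly
    have h3 := Pool.Agent.H90.Closed.Comp.comp h2 (polyCheck s).tm2
    refine ⟨fun x => check s (apx ((red s (f x)).1, precU (f x))), h3, fun x => ?_⟩
    rw [hf1 x]
    have hnd := hst (f x) (hf2 x)
    obtain ⟨k1, k2, k3⟩ := hapx _ (precU (f x)) hnd.1 hnd.2
    exact check_approx hs (f x) (hf2 x) _ k1 k2 k3

end Pool.Agent.Results.MP_b24d90_lc.EuclideanMax3DMHard
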